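import Pool.Agent.TH654.TU.Stage
import Pool.Agent.H628R3.RO.E1

/-!
# The check for `Two` can be carried out
-/

set_option autoImplicit false

namespace Pool.Agent.TH654.TU

open MeasureTheory Pool.Agent.NPC Pool.Agent.H628R3.RO Pool.Agent.H673R3 Pool.Agent.H673R3.UC
  Pool.Agent.H673R3.UC.Chk

/-- a hit in the pair -/
def oneB (L : List (ℕ × List Bool)) (s b i : ℕ) : Bool :=
  L.any (fun κ => decide ((b * (2 * KK s) + 2 * i) * rr s ≤ κ.1) &&
      decide (κ.1 < (b * (2 * KK s) + 2 * i + 2) * rr s))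

theorem oneB_iff {S : List (List Bool)} {n s b i : ℕ} (hb : b < BB s) (hi : i < KK s) :
    oneB (hitL S n s) s b i = true ↔ ofL S ∉ Zero n s b i := by
  unfold oneB UC.Zero NoHit
  simp only [List.any_eq_true, Bool.and_eq_true, decide_eq_true_eq, mem_hitL,
    Set.mem_ofPred_eq]
  push Not
  constructor
  · rintro ⟨κ, ⟨h1, h2, h3⟩, h4, h5⟩
    exact ⟨κ, mem_pair.2 ⟨⟨h4, h5⟩, h2⟩, h3⟩
  · rintro ⟨κ, h1, h3⟩
    obtain ⟨h2, h4⟩ := mem_pair.1 h1
    exact ⟨κ, ⟨le_tot hb hi h2, h4, h3⟩, h2.1, h2.2⟩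

theorem poly_oneB {α : Type} [TEnc α] {L : α → List (ℕ × List Bool)} {s b i : α → ℕ}
    (hL : Poly L) (hs : UPoly s) (hb : Poly b) (hi : Poly i) :
    Poly (fun a => oneB (L a) (s a) (b a) (i a)) := by
  have hx : Poly (fun a => b a * (2 * KK (s a)) + 2 * i a) :=
    Poly.add (Poly.mul hb (Poly.mul (NPC.Poly.const 2) (u_KK hs).toPoly))
      (Poly.mul (NPC.Poly.const 2) hi)
  have hr : Poly (fun a => rr (s a)) := (u_rr hs.toPoly).toPoly
  have hlo : Poly (fun a => (b a * (2 * KK (s a)) + 2 * i a) * rr (s a)) := Poly.mul hx hr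
  have hhi : Poly (fun a => (b a * (2 * KK (s a)) + 2 * i a + 2) * rr (s a)) :=
    Poly.mul (Poly.add hx (NPC.Poly.const 2)) hr
  refine Poly.any (p := fun a (κ : ℕ × List Bool) =>
    decide ((b a * (2 * KK (s a)) + 2 * i a) * rr (s a) ≤ κ.1) &&
      decide (κ.1 < (b a * (2 * KK (s a)) + 2 * i a + 2) * rr (s a))) hL ?_
  have k1 : Poly (fun q : α × (ℕ × List Bool) => q.1) := Poly.fst Poly.id
  have k2 : Poly (fun q : α × (ℕ × List Bool) => q.2.1) := Poly.fst (Poly.snd Poly.id)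
  exact Poly.and (Poly.decide_le (hlo.comp k1) k2) (Poly.decide_lt k2 (hhi.comp k1))

theorem pTwo_B (b : Polynomial ℕ) (hb8 : ∀ n, wl n ≤ b.eval (2 ^ n)) :
    ∃ f : List (List Bool) → ℕ → ℕ → Bool, (∀ S n j, f S n j = true ↔ ofL S ∈ Two n j) ∧
    ∀ {α : Type} [TEnc α] {S : α → List (List Bool)} {n j N : α → ℕ}, Poly S → UPoly n →
      UPoly j → UPoly N → (∀ a, 2 ^ (b.eval (2 ^ (n a))) ≤ N a) →
      Poly (fun a => f (S a) (n a) (j a)) := by
  refine ⟨fun S n j => (List.range (BB j)).any (fun b => (List.range (KK j)).any (fun i =>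
    (List.range (KK j)).all (fun i' => decide (i' = i) || twoB (hitL S n j) j b i') &&
      !(oneB (hitL S n j) j b i))), fun S n j => ?_, ?_⟩
  · rw [List.any_eq_true, Two, TwoG, Set.mem_ofPred_eq]
    refine exists_congr fun b => ?_
    rw [List.mem_range, List.any_eq_true]
    refine and_congr_right fun hb => exists_congr fun i => ?_
    rw [List.mem_range]
    refine and_congr_right fun hi => ?_
    rw [Bool.and_eq_true, List.all_eq_true, Bool.not_eq_true', ← Bool.not_eq_true,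
      oneB_iff hb hi, not_not]
    refine and_congr_left fun _ => ?_
    rw [Oth, Set.mem_ofPred_eq]
    refine forall_congr' fun i' => ?_
    rw [List.mem_range]
    refine imp_congr_right fun hi' => ?_
    rw [Bool.or_eq_true, decide_eq_true_eq, twoB_iff hb hi']
    by_cases h : i' = i
    · simp [h]
    · simp [h]
  · intro α _ S n j N hS hn hj hN h
    have hp1 : ∀ a, 2 ^ (wl (n a)) ≤ N a := fun a =>
      (Nat.pow_le_pow_right (by norm_num) (hb8 _)).trans (h a)
    have hL : Poly (fun a => hitL (S a) (n a) (j a)) := poly_hitL hS hn hj hN hp1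
    refine Poly.any (p := fun a b => (List.range (KK (j a))).any (fun i =>
      (List.range (KK (j a))).all (fun i' => decide (i' = i) ||
        twoB (hitL (S a) (n a) (j a)) (j a) b i') &&
      !(oneB (hitL (S a) (n a) (j a)) (j a) b i))) (u_BB hj).range ?_
    have h1 : Poly (fun q : α × ℕ => q.1) := Poly.fst Poly.id
    refine Poly.any (p := fun (q : α × ℕ) i =>
      (List.range (KK (j q.1))).all (fun i' => decide (i' = i) ||
        twoB (hitL (S q.1) (n q.1) (j q.1)) (j q.1) q.2 i') &&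
      !(oneB (hitL (S q.1) (n q.1) (j q.1)) (j q.1) q.2 i)) ((u_KK hj).comp h1).range ?_
    have k1 : Poly (fun q : (α × ℕ) × ℕ => q.1.1) := Poly.fst (Poly.fst Poly.id)
    have k2 : Poly (fun q : (α × ℕ) × ℕ => q.1.2) := Poly.snd (Poly.fst Poly.id)
    have k3 : Poly (fun q : (α × ℕ) × ℕ => q.2) := Poly.snd Poly.id
    refine Poly.and ?_ (Poly.not (poly_oneB (hL.comp k1) (hj.comp k1) k2 k3))
    refine Poly.all (p := fun (q : (α × ℕ) × ℕ) i' => decide (i' = q.2) ||
      twoB (hitL (S q.1.1) (n q.1.1) (j q.1.1)) (j q.1.1) q.1.2 i')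
      ((u_KK hj).comp k1).range ?_
    have m1 : Poly (fun q : ((α × ℕ) × ℕ) × ℕ => q.1.1.1) :=
      Poly.fst (Poly.fst (Poly.fst Poly.id))
    have m2 : Poly (fun q : ((α × ℕ) × ℕ) × ℕ => q.1.1.2) :=
      Poly.snd (Poly.fst (Poly.fst Poly.id))
    have m3 : Poly (fun q : ((α × ℕ) × ℕ) × ℕ => q.1.2) := Poly.snd (Poly.fst Poly.id)
    have m4 : Poly (fun q : ((α × ℕ) × ℕ) × ℕ => q.2) := Poly.snd Poly.id
    exact Poly.or (Poly.decide_eq m4 m3) (poly_twoB (hL.comp m1) (hj.comp m1) m2 m4)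

theorem check_T (V : Alg) (p : Polynomial ℕ) :
    ∃ b, Check Two (fun n _ => ErrF V p n) b := by
  obtain ⟨b0, hb0⟩ := loc_ErrF V p
  obtain ⟨P, hP⟩ := length_spotsB
  refine ⟨(b0 + p + P) + Polynomial.C 16 * Polynomial.X + Polynomial.C 16, ?_⟩
  have hle : ∀ m, m ≤
      ((b0 + p + P) + Polynomial.C 16 * Polynomial.X + Polynomial.C 16).eval m := by
    intro m
    simp only [Polynomial.eval_add, Polynomial.eval_mul, Polynomial.eval_C, Polynomial.eval_X]
    omega
  have hle' : ∀ m, p.eval m ≤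
      ((b0 + p + P) + Polynomial.C 16 * Polynomial.X + Polynomial.C 16).eval m := by
    intro m
    simp only [Polynomial.eval_add]
    omega
  have hwl : ∀ n, wl n ≤ ((b0 + p + P) + Polynomial.C 16 * Polynomial.X +
      Polynomial.C 16).eval (2 ^ n) := by
    intro n
    have : n ≤ 2 ^ n := Nat.lt_two_pow_self.le
    simp only [Polynomial.eval_add, Polynomial.eval_mul, Polynomial.eval_C, Polynomial.eval_X, wl]
    omega
  refine ⟨hle, fun n j => (hb0 n).monoE fun x hx => ?_, fun n j hj => (loc_Two n j).monoE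
    fun x hx => ?_, pErr_F V p _ hle hle', pTwo_B _ hwl⟩
  · simp only [Set.mem_ofPred_eq, Polynomial.eval_add] at hx ⊢
    omega
  · have h1 := hP n j hj x hx
    have h2 : P.eval n ≤ P.eval (2 ^ n) := eval_mono _ Nat.lt_two_pow_self.le
    simp only [Set.mem_ofPred_eq, Polynomial.eval_add]
    omega

end Pool.Agent.TH654.TU
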