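import Pool.Agent.H673R3.UC.Z1

/-!
# Blocks with one low pair, which has no hit: the key inequality for systems of blocks
-/

set_option autoImplicit false

namespace Pool.Agent.TH654.TU

open MeasureTheory Pool.Agent.NPC Pool.Agent.H628R3.RO Pool.Agent.H673R3 Pool.Agent.H673R3.UC
  Pool.Agent.H673R3.UC.P4A

variable {Z O D : ℕ → ℕ → Set Oracle} {sp : ℕ → ℕ → Set (List Bool)} {a0 a1 d : ℝ} {B K : ℕ}

theorem prob_etaZ (h : PSys Z O D sp a0 a1 d B K) {K₀ : Set (List Bool)} (hK : K₀.Finite)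
    (hd : ∀ b < B, ∀ i < K, Disjoint K₀ (sp b i)) {η : Set Oracle} (hη : Loc K₀ η)
    {b j : ℕ} (hb : b < B) (hj : j < K) :
    prob ((η ∩ (QuiG Z O B K b ∩ Oth Z O K b j)) ∩ Z b j) =
      prob η * prob (QuiG Z O B K b) * (a0 * (1 - (a0 + a1)) ^ (K - 1)) := by
  classical
  have h1 := P2_gen h hK hd hη hb (Finset.range K) (fun i hi => Finset.mem_range.1 hi)
    (fun i => if i = j then Z b i else (Low Z O b i)ᶜ) (fun i hi => by
      have hi' := Finset.mem_range.1 hi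
      by_cases hij : i = j
      · simp only [hij, if_true]
        exact h.locZ b hb j hj
      · simp only [hij, if_false]
        exact M2.Loc.compl (P2_locLow h hb hi'))
  have h2 : (η ∩ (QuiG Z O B K b ∩ Oth Z O K b j)) ∩ Z b j =
      η ∩ (QuiG Z O B K b ∩ {A | ∀ i ∈ Finset.range K, A ∈ (if i = j then Z b i
        else (Low Z O b i)ᶜ)}) := by
    ext A
    constructor
    · rintro ⟨⟨e1, e2, e3⟩, e4⟩
      refine ⟨e1, e2, fun i hi => ?_⟩
      by_cases hij : i = j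
      · simp only [hij, if_true]
        exact e4
      · simp only [hij, if_false]
        exact e3 i (Finset.mem_range.1 hi) hij
    · rintro ⟨e1, e2, e3⟩
      refine ⟨⟨e1, e2, fun i hi hij => ?_⟩, ?_⟩
      · have := e3 i (Finset.mem_range.2 hi)
        simp only [hij, if_false] at this
        exact this
      · have := e3 j (Finset.mem_range.2 hj)
        simpa using this
  rw [h2, h1]
  congr 1
  rw [← Finset.mul_prod_erase (Finset.range K) _ (Finset.mem_range.2 hj)]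
  have h3 : ∏ i ∈ (Finset.range K).erase j, prob (if i = j then Z b i else (Low Z O b i)ᶜ) =
      (1 - (a0 + a1)) ^ (K - 1) := by
    rw [Finset.prod_congr rfl (g := fun _ => 1 - (a0 + a1)), Finset.prod_const,
      Finset.card_erase_of_mem (Finset.mem_range.2 hj), Finset.card_range]
    intro i hi
    rw [Finset.mem_erase, Finset.mem_range] at hi
    rw [if_neg hi.1]
    exact P2_probLowc h hb hi.2
  rw [h3, if_pos rfl, h.prZ b hb j hj]

/-- for every system of blocks, the numbers -/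
theorem sum_prob_etaZ_ge (h : PSys Z O D sp a0 a1 d B K) {K₀ : Set (List Bool)} (hK : K₀.Finite)
    (hd : ∀ b < B, ∀ i < K, Disjoint K₀ (sp b i)) {η : Set Oracle} (hη : Loc K₀ η)
    (hq : (B : ℝ) * ((1 - (a0 + a1)) ^ K + K * (a0 + a1) * (1 - (a0 + a1)) ^ (K - 1)) ≤ 1 / 64) :
    63 / 64 * (prob η * (B * K * (a0 * (1 - (a0 + a1)) ^ (K - 1)))) ≤
      ∑ p ∈ Finset.range B ×ˢ Finset.range K,
        prob ((η ∩ (QuiG Z O B K p.1 ∩ Oth Z O K p.1 p.2)) ∩ Z p.1 p.2) := by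
  have ha0 := h.nn0
  have ha1 := h.nn1
  have hal := h.al
  have hL : 0 < 1 - (a0 + a1) := by linarith
  have hη0 : 0 ≤ prob η := M2.prob_nonneg _
  have h1 : ∀ p ∈ Finset.range B ×ˢ Finset.range K,
      63 / 64 * (prob η * (a0 * (1 - (a0 + a1)) ^ (K - 1))) ≤
      prob ((η ∩ (QuiG Z O B K p.1 ∩ Oth Z O K p.1 p.2)) ∩ Z p.1 p.2) := by
    rintro ⟨b, j⟩ hp
    rw [Finset.mem_product, Finset.mem_range, Finset.mem_range] at hp
    obtain ⟨hb, hj⟩ := hp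
    rw [prob_etaZ h hK hd hη hb hj]
    have h2 := prob_QuiG_ge h b
    have h3 : 63 / 64 ≤ prob (QuiG Z O B K b) := by linarith
    have h4 : 0 ≤ prob η * (a0 * (1 - (a0 + a1)) ^ (K - 1)) := by positivity
    calc 63 / 64 * (prob η * (a0 * (1 - (a0 + a1)) ^ (K - 1))) ≤
        prob (QuiG Z O B K b) * (prob η * (a0 * (1 - (a0 + a1)) ^ (K - 1))) :=
          mul_le_mul_of_nonneg_right h3 h4
      _ = _ := by ring
  refine le_trans (le_of_eq ?_) (Finset.sum_le_sum h1)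
  rw [Finset.sum_const, Finset.card_product, Finset.card_range, Finset.card_range, nsmul_eq_mul]
  push_cast
  ring

theorem prob_TwoG_ge (h : PSys Z O D sp a0 a1 d B K)
    (hq : (B : ℝ) * ((1 - (a0 + a1)) ^ K + K * (a0 + a1) * (1 - (a0 + a1)) ^ (K - 1)) ≤ 1 / 64) :
    63 / 64 * (B * K * (a0 * (1 - (a0 + a1)) ^ (K - 1))) ≤ prob (TwoG Z O B K) := by
  have h1 := sum_prob_etaZ_ge h (K₀ := ∅) Set.finite_empty (fun _ _ _ _ => Set.empty_disjoint _)
    (η := Set.univ) (fun A A' _ => by simp) hq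
  rw [prob_univ', one_mul] at h1
  refine h1.trans ?_
  obtain ⟨K', hKf, hKZ⟩ := loc_all h
  have hKZ' : ∀ A A' : Oracle, (∀ x ∈ K', A x = A' x) →
      ∀ b < B, ∀ i < K, (A ∈ Z b i ↔ A' ∈ Z b i) ∧ (A ∈ O b i ↔ A' ∈ O b i) :=
    fun A A' hA b hb i hi => ⟨(hKZ A A' hA b hb i hi).1, (hKZ A A' hA b hb i hi).2.1⟩
  apply sum_prob_le_prob
  · rintro ⟨b, j⟩ hp
    rw [Finset.mem_product, Finset.mem_range, Finset.mem_range] at hp
    obtain ⟨hb, hj⟩ := hp
    exact (MeasurableSet.univ.inter ((measurableSet_of_loc hKf fun A A' hA =>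
      iff_QuiG (hKZ' A A' hA)).inter (measurableSet_of_loc hKf fun A A' hA =>
      iff_Oth (hKZ' A A' hA b hb)))).inter (measurableSet_of_loc hKf fun A A' hA =>
      (hKZ' A A' hA b hb j hj).1)
  · rintro ⟨b, j⟩ hp ⟨b', j'⟩ hp' hne
    rw [Finset.mem_product, Finset.mem_range, Finset.mem_range] at hp hp'
    obtain ⟨hb, hj⟩ := hp
    obtain ⟨hb', hj'⟩ := hp'
    simp only at hb hj hb' hj'
    rw [Set.disjoint_left]
    rintro A ⟨⟨_, hQ, hO⟩, hX⟩ ⟨⟨_, hQ', hO'⟩, hX'⟩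
    by_cases hbb : b' = b
    · have hjj : j' ≠ j := fun h => hne (by rw [hbb, h])
      subst hbb
      exact hO j' hj' hjj (Or.inl hX')
    · exact (hQ b' hb' hbb).2 ⟨j', hj', Or.inl hX', hO'⟩
  · rintro ⟨b, j⟩ hp A ⟨⟨_, _, hO⟩, hX⟩
    rw [Finset.mem_product, Finset.mem_range, Finset.mem_range] at hp
    exact ⟨b, hp.1, j, hp.2, hO, hX⟩

theorem key_genZ (h : PSys Z O D sp a0 a1 d B K) {K₀ : Set (List Bool)} (hK : K₀.Finite)
    (hd : ∀ b < B, ∀ i < K, Disjoint K₀ (sp b i)) {η G E : Set Oracle} (hη : Loc K₀ η)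
    (hG : MeasurableSet G) (hE : MeasurableSet E)
    (hq : (B : ℝ) * ((1 - (a0 + a1)) ^ K + K * (a0 + a1) * (1 - (a0 + a1)) ^ (K - 1)) ≤ 1 / 64)
    {c l : ℝ} (hc : 0 ≤ c) (hl0 : 0 ≤ l)
    (hl : l ≤ c * (1 / 2 * (B * K * (a0 * (1 - (a0 + a1)) ^ (K - 1)))))
    (key : ∀ b < B, ∀ j < K,
      c * (prob ((η ∩ (QuiG Z O B K b ∩ Oth Z O K b j)) ∩ Z b j) -
        prob ((η ∩ (QuiG Z O B K b ∩ Oth Z O K b j)) ∩ (Z b j ∩ E))) ≤
      prob ((η ∩ (QuiG Z O B K b ∩ Oth Z O K b j)) ∩ (O b j ∩ Gᶜ))) :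
    l * (7 / 8 * prob η - prob (η ∩ (TwoG Z O B K ∩ E)) / prob (TwoG Z O B K)) ≤
      prob (η ∩ Gᶜ) := by
  classical
  have ha0 := h.nn0
  have ha1 := h.nn1
  have hal := h.al
  have hL : 0 < 1 - (a0 + a1) := by linarith
  have hPη : 0 ≤ prob η := M2.prob_nonneg _
  obtain ⟨K', hKf, hKZ⟩ := loc_all h
  have hKZ' : ∀ A A' : Oracle, (∀ x ∈ K', A x = A' x) →
      ∀ b < B, ∀ i < K, (A ∈ Z b i ↔ A' ∈ Z b i) ∧ (A ∈ O b i ↔ A' ∈ O b i) :=
    fun A A' hA b hb i hi => ⟨(hKZ A A' hA b hb i hi).1, (hKZ A A' hA b hb i hi).2.1⟩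
  have mη : MeasurableSet η := measurableSet_of_loc hK hη
  have mQ : ∀ b, MeasurableSet (QuiG Z O B K b) := fun b =>
    measurableSet_of_loc hKf fun A A' hA => iff_QuiG (hKZ' A A' hA)
  have mO : ∀ b < B, ∀ j, MeasurableSet (Oth Z O K b j) := fun b hb j =>
    measurableSet_of_loc hKf fun A A' hA => iff_Oth (hKZ' A A' hA b hb)
  have mZ : ∀ b < B, ∀ j < K, MeasurableSet (Z b j) := fun b hb j hj =>
    measurableSet_of_loc hKf fun A A' hA => (hKZ' A A' hA b hb j hj).1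
  have mOne : ∀ b < B, ∀ j < K, MeasurableSet (O b j) := fun b hb j hj =>
    measurableSet_of_loc hKf fun A A' hA => (hKZ' A A' hA b hb j hj).2
  -- disjointness
  have hdis : ∀ (X : ℕ → ℕ → Set Oracle), (∀ b j, X b j ⊆ Low Z O b j) →
      ∀ p ∈ Finset.range B ×ˢ Finset.range K, ∀ p' ∈ Finset.range B ×ˢ Finset.range K, p ≠ p' →
      Disjoint ((η ∩ (QuiG Z O B K p.1 ∩ Oth Z O K p.1 p.2)) ∩ X p.1 p.2)
        ((η ∩ (QuiG Z O B K p'.1 ∩ Oth Z O K p'.1 p'.2)) ∩ X p'.1 p'.2) := by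
    rintro X hXL ⟨b, j⟩ hp ⟨b', j'⟩ hp' hne
    rw [Finset.mem_product, Finset.mem_range, Finset.mem_range] at hp hp'
    obtain ⟨hb, hj⟩ := hp
    obtain ⟨hb', hj'⟩ := hp'
    simp only at hb hj hb' hj'
    rw [Set.disjoint_left]
    rintro A ⟨⟨_, hQ, hO⟩, hX⟩ ⟨⟨_, hQ', hO'⟩, hX'⟩
    by_cases hbb : b' = b
    · have hjj : j' ≠ j := fun h => hne (by rw [hbb, h])
      subst hbb
      exact hO j' hj' hjj (hXL _ _ hX')
    · exact (hQ b' hb' hbb).2 ⟨j', hj', hXL _ _ hX', hO'⟩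
  have hRsum : ∑ p ∈ Finset.range B ×ˢ Finset.range K,
      prob ((η ∩ (QuiG Z O B K p.1 ∩ Oth Z O K p.1 p.2)) ∩ (O p.1 p.2 ∩ Gᶜ)) ≤
      prob (η ∩ Gᶜ) := by
    apply sum_prob_le_prob
    · rintro ⟨b, j⟩ hp
      rw [Finset.mem_product, Finset.mem_range, Finset.mem_range] at hp
      obtain ⟨hb, hj⟩ := hp
      exact (mη.inter ((mQ b).inter (mO b hb j))).inter ((mOne b hb j hj).inter hG.compl)
    · exact hdis (fun b j => O b j ∩ Gᶜ) (fun b j A hA => Or.inr hA.1)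
    · rintro ⟨b, j⟩ _ A ⟨⟨h1, _⟩, _, h2⟩
      exact ⟨h1, h2⟩
  have hEsum : ∑ p ∈ Finset.range B ×ˢ Finset.range K,
      prob ((η ∩ (QuiG Z O B K p.1 ∩ Oth Z O K p.1 p.2)) ∩ (Z p.1 p.2 ∩ E)) ≤
      prob (η ∩ (TwoG Z O B K ∩ E)) := by
    apply sum_prob_le_prob
    · rintro ⟨b, j⟩ hp
      rw [Finset.mem_product, Finset.mem_range, Finset.mem_range] at hp
      obtain ⟨hb, hj⟩ := hp
      exact (mη.inter ((mQ b).inter (mO b hb j))).inter ((mZ b hb j hj).inter hE)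
    · exact hdis (fun b j => Z b j ∩ E) (fun b j A hA => Or.inl hA.1)
    · rintro ⟨b, j⟩ hp A ⟨⟨h1, _, h2⟩, h3, h4⟩
      rw [Finset.mem_product, Finset.mem_range, Finset.mem_range] at hp
      exact ⟨h1, ⟨b, hp.1, j, hp.2, h2, h3⟩, h4⟩
  have hsum := sum_prob_etaZ_ge h hK hd hη hq
  have hkey := Finset.sum_le_sum fun p (hp : p ∈ Finset.range B ×ˢ Finset.range K) =>
    key p.1 (Finset.mem_range.1 (Finset.mem_product.1 hp).1) p.2
      (Finset.mem_range.1 (Finset.mem_product.1 hp).2)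
  rw [← Finset.mul_sum, Finset.sum_sub_distrib] at hkey
  set M : ℝ := B * K * (a0 * (1 - (a0 + a1)) ^ (K - 1)) with hM
  have hM0 : 0 ≤ M := by positivity
  have htot : c * (7 / 8 * prob η * M - prob (η ∩ (TwoG Z O B K ∩ E))) ≤ prob (η ∩ Gᶜ) := by
    refine le_trans (mul_le_mul_of_nonneg_left ?_ hc) (hkey.trans hRsum)
    have h1 : 0 ≤ prob η * M := mul_nonneg hPη hM0
    linarith
  refine P4A.num_final (c := c) (M := M) hc hl (M2.prob_nonneg _) ?_ ?_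
    (M2.prob_nonneg _) hl0 htot
  · exact M2.prob_mono fun A hA => hA.2.1
  · exact prob_TwoG_le h

end Pool.Agent.TH654.TU
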