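import Pool.Agent.TH654.TU.Stage

/-!
# Deciding the half with the hit by one call to a total search problem
-/

set_option autoImplicit false

namespace Pool.Agent.TH654.TU

open MeasureTheory Pool.Agent.NPC Pool.Agent.H628R3.RO Pool.Agent.H673R3 Pool.Agent.H673R3.UC

/-- At stage `n`, the pair `r` of algorithms decides the instances by one call to the search
problem given by `V` and `p`. -/
def GoodD (V : Alg) (p : Polynomial ℕ) (r : Alg × Alg) (n s : ℕ) : Set Oracle :=
  {A | ∀ b < BB s, ∀ j < KK s, A ∈ Others n s b j →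
    ∃ x, r.1.out A (inst n s b j A) = some x ∧
    ∀ y : List Bool, y.length ≤ p.eval x.length → V.out A (pairBits x y) = some [true] →
      ∃ g, r.2.out A (pairBits (inst n s b j A) y) = some g ∧
        (g = [true] ↔ A ∉ NoHit (wl n) (half n s b (2 * j)))}

theorem loc_GoodD (V : Alg) (p : Polynomial ℕ) (r : Alg × Alg) : ∃ b : Polynomial ℕ,
    ∀ n s, s ≤ n → Loc {x | x.length ≤ b.eval (2 ^ n)} (GoodD V p r n s) := by
  obtain ⟨q1, hq1⟩ := r.1.out_congr
  obtain ⟨q2, hq2⟩ := r.2.out_congr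
  obtain ⟨qV, hqV⟩ := V.out_congr
  obtain ⟨b1, hb1⟩ := r.1.out_length
  obtain ⟨P, hP⟩ := inst_length
  obtain ⟨S, hS⟩ := length_spotsB
  obtain ⟨P1, hP1⟩ : ∃ Q : Polynomial ℕ, Q = Polynomial.C 2 * b1 + Polynomial.C 1 + p.comp b1 :=
    ⟨_, rfl⟩
  obtain ⟨P2, hP2⟩ : ∃ Q : Polynomial ℕ,
    Q = Polynomial.C 2 * Polynomial.X + Polynomial.C 1 + p.comp b1 := ⟨_, rfl⟩
  refine ⟨S + q1.comp P + qV.comp (P1.comp P) + q2.comp (P2.comp P),
    fun n s hs => loc_of_imp fun A A' h => ?_⟩
  have hn2 : n ≤ 2 ^ n := Nat.lt_two_pow_self.le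
  have h' : ∀ z : List Bool, z.length ≤ S.eval (2 ^ n) + q1.eval (P.eval (2 ^ n)) +
      qV.eval (P1.eval (P.eval (2 ^ n))) + q2.eval (P2.eval (P.eval (2 ^ n))) →
      A z = A' z := by
    intro z hz
    apply h z
    change z.length ≤ _
    simpa only [Polynomial.eval_add, Polynomial.eval_comp] using hz
  have hspots : ∀ x ∈ spotsB n s, A x = A' x := by
    intro x hx
    apply h'
    have h1 := hS n s hs x hx
    have h2 := eval_mono S hn2
    omega
  intro hG b hb j hj hO'
  have hO : A ∈ Others n s b j := (loc_Others hb A A' hspots).mpr hO'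
  have hj2 : 2 * j < 2 * KK s := by omega
  obtain ⟨x, hx, hx1⟩ := hG b hb j hj hO
  have hinst : inst n s b j A = inst n s b j A' := inst_congr hb hspots
  have hlen : (inst n s b j A).length ≤ P.eval (2 ^ n) :=
    (hP n s b j A hs hb hj).trans (eval_mono P hn2)
  have hxlen : x.length ≤ b1.eval (P.eval (2 ^ n)) :=
    (hb1 A _ x hx).trans (eval_mono b1 hlen)
  have hloc := loc_noHitHalf (n := n) hb hj2 A A' hspots
  refine ⟨x, ?_, fun y hy hV => ?_⟩
  · rw [← hinst, ← hx]
    symm
    refine hq1 A A' _ (P.eval (2 ^ n)) hlen fun z hz => h' z ?_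
    omega
  · have hyl : y.length ≤ p.eval (b1.eval (P.eval (2 ^ n))) := hy.trans (eval_mono p hxlen)
    have e2 : V.out A (pairBits x y) = V.out A' (pairBits x y) := by
      apply hqV A A' _ (P1.eval (P.eval (2 ^ n)))
      · rw [length_pairBits, hP1]
        simp only [Polynomial.eval_add, Polynomial.eval_comp, Polynomial.eval_mul,
          Polynomial.eval_C]
        omega
      · intro z hz
        apply h' z
        omega
    rw [← e2] at hV
    obtain ⟨g, hg, hg2⟩ := hx1 y hy hV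
    refine ⟨g, ?_, ?_⟩
    · rw [← hinst, ← hg]
      symm
      apply hq2 A A' _ (P2.eval (P.eval (2 ^ n)))
      · rw [length_pairBits, hP2]
        simp only [Polynomial.eval_add, Polynomial.eval_comp, Polynomial.eval_mul,
          Polynomial.eval_C, Polynomial.eval_X]
        omega
      · intro z hz
        apply h' z
        omega
    · rw [hg2]
      exact not_congr hloc

theorem key_D (V : Alg) (p : Polynomial ℕ) (r : Alg × Alg) : ∃ n0, ∀ n ≥ n0, ∀ s,
    4 ≤ s → s ≤ n → ∀ t < n, ∀ η : Set Oracle, Loc {x | x.length ≤ t} η →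
    ll s * (7 / 8 * prob η - prob (η ∩ (Two n s ∩ ErrF V p n)) / prob (Two n s)) ≤
      prob (η ∩ (GoodD V p r n s)ᶜ) := by
  classical
  obtain ⟨bE, hbE⟩ := loc_ErrF V p
  obtain ⟨bG, hbG⟩ := loc_GoodD V p r
  obtain ⟨bl, hbl⟩ := r.1.out_length
  obtain ⟨q1, hq1⟩ := r.1.out_local
  obtain ⟨q2, hq2⟩ := r.2.out_local
  obtain ⟨qV, hqV⟩ := V.out_local
  obtain ⟨P, hP⟩ := inst_length
  obtain ⟨n1, hn1⟩ := poly_le_two_pow (bl.comp P)
  obtain ⟨n2, hn2⟩ := poly_le_two_pow
    (r.1.p.comp P + V.p.comp (Polynomial.C 2 * bl.comp P + 1 + p.comp (bl.comp P)) +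
      r.2.p.comp (Polynomial.C 2 * P + 1 + p.comp (bl.comp P)))
  refine ⟨max n1 n2, fun n hn s hs4 hsn t ht η hη => ?_⟩
  have hn1' := hn1 n (le_trans (le_max_left _ _) hn)
  have hn2' := hn2 n (le_trans (le_max_right _ _) hn)
  simp only [Polynomial.eval_comp, Polynomial.eval_add, Polynomial.eval_mul, Polynomial.eval_C,
      Polynomial.eval_one] at hn1' hn2'
  refine key_blocksT (k := bE.eval (2 ^ n) + bG.eval (2 ^ n)) (t := _) hs4 hsn ht hη
    (Loc.mono (fun x hx => by simp only [Set.mem_ofPred_eq] at hx ⊢; omega) (hbG n s hsn))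
    (Loc.mono (fun x hx => by simp only [Set.mem_ofPred_eq] at hx ⊢; omega) (hbE n)) hn2' ?_
  intro b hb j hj B hBO hBZ hBE
  set m := wl n with hm
  set W := pair n s b j with hWdef
  -- the instance
  set x : List Bool := inst n s b j B with hx
  have hxlen : x.length ≤ P.eval n := hP n s b j B hsn hb hj
  have hxp : ∀ h : Finset Cand, h ⊆ W → inst n s b j (plant (allSpots m h) B) = x :=
    fun h hh => inst_plant hj hh B
  set x0 : List Bool := (r.1.out B x).getD [] with hx0
  have hx0len : x0.length ≤ bl.eval (P.eval n) := by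
    rw [hx0]
    cases h : r.1.out B x with
    | none => simp
    | some z =>
      have := (hbl B _ z h).trans (eval_mono bl hxlen)
      simpa using this
  -- the solution
  obtain ⟨y, hy1, hy2⟩ : ∃ y : List Bool, y.length ≤ p.eval x0.length ∧
      V.out B (pairBits x0 y) = some [true] := by
    by_contra hcon
    push Not at hcon
    exact hBE ⟨x0, hx0len.trans hn1', hcon⟩
  have hylen : y.length ≤ p.eval (bl.eval (P.eval n)) := hy1.trans (eval_mono p hx0len)
  obtain ⟨Q1, hQ1c, -, hQ1⟩ := hq1 B x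
  obtain ⟨QV, hQVc, -, hQV⟩ := hqV B (pairBits x0 y)
  obtain ⟨Q2, hQ2c, -, hQ2⟩ := hq2 B (pairBits x y)
  obtain ⟨T, hTc, hT⟩ := touch W m (Q1 ∪ QV ∪ Q2)
  have hT1 : T.card ≤ r.1.p.eval (P.eval n) +
      V.p.eval (2 * bl.eval (P.eval n) + 1 + p.eval (bl.eval (P.eval n))) +
      r.2.p.eval (2 * P.eval n + 1 + p.eval (bl.eval (P.eval n))) := by
    refine hTc.trans (((Finset.card_union_le _ _).trans (Nat.add_le_add_right
      (Finset.card_union_le _ _) _)).trans ?_)
    have h1 := hQ1c.trans (eval_mono r.1.p hxlen)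
    have h2 : QV.card ≤ V.p.eval (2 * bl.eval (P.eval n) + 1 + p.eval (bl.eval (P.eval n))) := by
      refine hQVc.trans (eval_mono _ ?_)
      rw [length_pairBits]
      omega
    have h3 : Q2.card ≤ r.2.p.eval (2 * P.eval n + 1 + p.eval (bl.eval (P.eval n))) := by
      refine hQ2c.trans (eval_mono _ ?_)
      rw [length_pairBits]
      omega
    omega
  refine ⟨T, hT1, fun κ hκ κ' hκ' hκT hκ'T hG hG' => ?_⟩
  have hκW : κ ∈ W := Finset.mem_union_left _ hκ
  have hκ'W : κ' ∈ W := Finset.mem_union_right _ hκ'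
  -- the answer does not depend on the hit
  have hans : ∀ ρ ∈ W, ρ ∉ T → plant (allSpots m {ρ}) B ∈ GoodD V p r n s →
      ∃ g, r.2.out B (pairBits x y) = some g ∧
        (g = [true] ↔ plant (allSpots m {ρ}) B ∉ NoHit m (half n s b (2 * j))) := by
    intro ρ hρ hρT hρG
    have hhi : ({ρ} : Finset Cand) ⊆ W := Finset.singleton_subset_iff.2 hρ
    have hdj : Disjoint ({ρ} : Finset Cand) T := Finset.disjoint_singleton_left.2 hρT
    have hsame := hT {ρ} hhi hdj B
    have hOi : plant (allSpots m {ρ}) B ∈ Others n s b j := (plant_Others hj hhi B).mpr hBO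
    obtain ⟨v, hv, hv1⟩ := hρG b hb j hj hOi
    have h1 : r.1.out (plant (allSpots m {ρ}) B) x = r.1.out B x :=
      hQ1 _ fun q hq => hsame q (Finset.mem_union_left _ (Finset.mem_union_left _ hq))
    have h2 : V.out (plant (allSpots m {ρ}) B) (pairBits x0 y) = V.out B (pairBits x0 y) :=
      hQV _ fun q hq => hsame q (Finset.mem_union_left _ (Finset.mem_union_right _ hq))
    have h3 : r.2.out (plant (allSpots m {ρ}) B) (pairBits x y) = r.2.out B (pairBits x y) :=
      hQ2 _ fun q hq => hsame q (Finset.mem_union_right _ hq)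
    rw [hxp _ hhi, h1] at hv
    have hvx : v = x0 := by
      rw [hx0, hv]
      rfl
    subst hvx
    obtain ⟨g, hg, hg2⟩ := hv1 y hy1 (by rw [h2]; exact hy2)
    rw [hxp _ hhi, h3] at hg
    exact ⟨g, hg, hg2⟩
  obtain ⟨g, hg1, hg2⟩ := hans κ hκW hκT hG
  obtain ⟨g', hg1', hg2'⟩ := hans κ' hκ'W hκ'T hG'
  rw [hg1, Option.some.injEq] at hg1'
  subst hg1'
  have hg3 : g = [true] := by
    rw [hg2]
    intro hno
    exact hno κ hκ (M2.hit_plant_self (Finset.mem_singleton_self κ) B)
  refine (hg2'.1 hg3) fun ρ hρ hhit => ?_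
  have hne : ρ ∉ ({κ'} : Finset Cand) := by
    rw [Finset.mem_singleton]
    rintro rfl
    exact Finset.disjoint_left.1 (half_disjoint n s b j) hρ hκ'
  exact hBZ ρ (Finset.mem_union_left _ hρ) ((M2.hit_plant hne B).1 hhit)

end Pool.Agent.TH654.TU
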