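import Pool.Agent.TH654.TU.Key
import Pool.Agent.TH654.TU.Chk
import Pool.Agent.H628R3.RO.F3

/-!
# Relative to a random oracle no total `NP` search problem decides `UP ∩ coUP` by one call
-/

set_option autoImplicit false

namespace Pool.Agent.TH654.TU

open MeasureTheory Pool.Agent.NPC Pool.Agent.H628R3.RO Pool.Agent.H673R3 Pool.Agent.H673R3.UC

/-- the core -/
theorem ae_D (V : Alg) (p : Polynomial ℕ) : ∃ b : Polynomial ℕ,
    Check Two (fun n _ => ErrF V p n) b ∧
    ∀ᵐ A ∂randomOracle, (∀ n s, A ∉ Two n s ∩ ErrF V p n) →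
      ∃ (t : ℕ) (L : List (List Bool)),
      (∃ i0, ∀ i ≥ i0, A ∉ UC.Inv (Tt b t i) (H628R3.RO.lev Two (fun n _ => ErrF V p n) t L (Tt b t) i)) ∧
      ∀ (r : Alg × Alg) (i0 : ℕ), ∃ i ≥ i0,
        A ∉ GoodD V p r (Tt b t i) (H628R3.RO.lev Two (fun n _ => ErrF V p n) t L (Tt b t) i) := by
  obtain ⟨b, hc⟩ := check_T V p
  refine ⟨b, hc, ?_⟩
  exact Pool.Agent.H583R2.NC.core_gen (R := Alg × Alg) Two UC.Inv (fun n _ => ErrF V p n)
    (GoodD V p) spotsB
    (fun n s => lt_length_spotsB) (fun n n' s s' h => disjoint_spotsB n n' s s' h)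
    loc_Two (fun n s => measurableSet_of_loc (spotsB n s).finite_toSet (loc_Inv n s))
    b hc.locErr hc.locBad (fun r => loc_GoodD V p r)
    e2 ll e2_nonneg summable_e2 (fun s hs => e2_le hs)
    (fun n s hs hn => prob_Two_le hs hn) 2 (fun n s hs hn => prob_Inv_le_Two hs hn)
    (fun s hs => ⟨63 * ((1 / 2 : ℝ) ^ (rr s + 12) / (rr s : ℝ) ^ 2), by
      have := Z1_rr_pos hs
      positivity, fun n hn => prob_Two_pos hs hn⟩)
    ll_nonneg not_summable_ll (fun r => key_D V p r) hc.le_eval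

/-- `L` is decided by one call to the search problem `T` -/
def OneCall (A : Oracle) (L : Set (List Bool)) (T : List Bool → List Bool → Prop) : Prop :=
  ∃ F G : List Bool → List Bool, IsFP A F ∧ IsFP A G ∧
    ∀ x y, T (F x) y → (G (pairBits x y) = [true] ↔ x ∈ L)

theorem main_D : ∀ᵐ A ∂randomOracle, ∀ T, IsTFNP A T →
    ∃ L : Set (List Bool), IsUP A L ∧ IsUP A Lᶜ ∧ ¬ OneCall A L T := by
  have := countable_poly
  choose b hc hcore using fun q : Alg × Polynomial ℕ => ae_D q.1 q.2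
  have hall : ∀ᵐ A ∂randomOracle, ∀ q : Alg × Polynomial ℕ,
      (∀ n s, A ∉ Two n s ∩ ErrF q.1 q.2 n) → ∃ (t : ℕ) (L : List (List Bool)),
      (∃ i0, ∀ i ≥ i0, A ∉ UC.Inv (Tt (b q) t i)
        (H628R3.RO.lev Two (fun n _ => ErrF q.1 q.2 n) t L (Tt (b q) t) i)) ∧
      ∀ (r : Alg × Alg) (i0 : ℕ), ∃ i ≥ i0, A ∉ GoodD q.1 q.2 r (Tt (b q) t i)
        (H628R3.RO.lev Two (fun n _ => ErrF q.1 q.2 n) t L (Tt (b q) t) i) :=
    ae_all_iff.2 hcore
  filter_upwards [hall] with A hA R hR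
  obtain ⟨⟨V, p, ⟨M, hM⟩, hV⟩, htot⟩ := hR
  obtain ⟨t, S, ⟨i1, h1⟩, h2⟩ := hA (M, p) (by
    rintro n j ⟨_, x, _, h4⟩
    obtain ⟨y, hy⟩ := htot x
    obtain ⟨h5, h6⟩ := (hV x y).1 hy
    exact h4 y h5 (by rw [hM, h6]))
  set f := schK Two (fun n _ => ErrF M p n) (b (M, p)) t S (Tt (b (M, p)) t i1) with hf
  have hfn : ∀ n s, f n = some s → s ≤ n := fun n s h => schK_le h
  have hfA : ∀ n s, f n = some s → A ∉ UC.Inv n s := by
    intro n s h
    obtain ⟨h3, i, rfl, rfl⟩ := eq_of_schK h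
    exact h1 i ((strictMono_Tt (b (M, p)) t).le_iff_le.1 h3)
  have hpf : Poly (fun x : List Unit => f x.length) :=
    Pool.Agent.H583R2.NC.p_schK' (hc (M, p)) t S _
  refine ⟨_, isUP_LL A f hpf hfn hfA, isUP_LLc A f hpf hfn hfA, ?_⟩
  rintro ⟨F, G, ⟨r1, hr1⟩, ⟨r2, hr2⟩, hred⟩
  obtain ⟨i, hi, h3⟩ := h2 (r1, r2) i1
  set n := Tt (b (M, p)) t i with hn
  set s := H628R3.RO.lev Two (fun n _ => ErrF M p n) t S (Tt (b (M, p)) t) i with hs
  have hfi : f n = some s := schK_Tt ((strictMono_Tt (b (M, p)) t).monotone hi)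
  refine h3 fun bb hbb j hj ho => ⟨_, hr1 _, fun y hy hy' => ⟨_, hr2 _, ?_⟩⟩
  rw [hM, Option.some.injEq] at hy'
  rw [hred _ _ ((hV _ _).2 ⟨hy, hy'⟩)]
  exact Z1_mem_LL_inst hfi hbb hj ho

/-! ### Consequences -/

/-- the search for a witness on either side -/
def Either (V1 V0 : List Bool → List Bool) (p1 p0 : Polynomial ℕ) (x y : List Bool) : Prop :=
  (∃ w, y = true :: w ∧ w.length ≤ p1.eval x.length ∧ V1 (pairBits x w) = [true]) ∨
  (∃ w, y = false :: w ∧ w.length ≤ p0.eval x.length ∧ V0 (pairBits x w) = [true])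

/-- the final decision -/
def fin (p1 p0 : Polynomial ℕ) (q : List Bool × (List Bool × List Bool)) : List Bool :=
  match (unpair q.1).2 with
  | [] => []
  | b :: w => if b = true then (if w.length ≤ p1.eval (unpair q.1).1.length then q.2.1 else [])
      else (if w.length ≤ p0.eval (unpair q.1).1.length then q.2.2 else [])

theorem poly_fin (p1 p0 : Polynomial ℕ) : Poly (fin p1 p0) := by
  have h1 : Poly (fun q : List Bool × (List Bool × List Bool) => unpair q.1) :=
    poly_unpair.comp (Poly.fst Poly.id)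
  have hx : UPoly (fun q : List Bool × (List Bool × List Bool) => (unpair q.1).1.length) :=
    UPoly.length (Poly.fst h1)
  have k1 : Poly (fun p : (List Bool × (List Bool × List Bool)) × (Bool × List Bool) => p.1) :=
    Poly.fst Poly.id
  have k2 : Poly (fun p : (List Bool × (List Bool × List Bool)) × (Bool × List Bool) => p.2.1) :=
    Poly.fst (Poly.snd Poly.id)
  have k3 : Poly (fun p : (List Bool × (List Bool × List Bool)) × (Bool × List Bool) => p.2.2) :=
    Poly.snd (Poly.snd Poly.id)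
  refine (Poly.listCases (l := fun q : List Bool × (List Bool × List Bool) => (unpair q.1).2)
    (g := fun _ => []) (h := fun q b w => if b = true then
      (if w.length ≤ p1.eval (unpair q.1).1.length then q.2.1 else [])
      else (if w.length ≤ p0.eval (unpair q.1).1.length then q.2.2 else []))
    (Poly.snd h1) (NPC.Poly.const _) ?_).congr fun q => ?_
  · refine Poly.ite (Poly.decide_eq k2 (NPC.Poly.const true)) (Poly.ite
      (Poly.decide_le (Poly.length k3) ((hx.eval p1).comp k1).toPoly) ?_ (NPC.Poly.const _))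
      (Poly.ite (Poly.decide_le (Poly.length k3) ((hx.eval p0).comp k1).toPoly) ?_
        (NPC.Poly.const _))
    · exact Poly.fst (Poly.snd k1)
    · exact Poly.snd (Poly.snd k1)
  · unfold fin
    cases (unpair q.1).2 <;> rfl

theorem either_spec {A : Oracle} {V1 V0 : List Bool → List Bool} (h1 : IsFP A V1)
    (h0 : IsFP A V0) (p1 p0 : Polynomial ℕ) :
    ∃ (V : List Bool → List Bool) (p : Polynomial ℕ), IsFP A V ∧ ∀ x y,
      Either V1 V0 p1 p0 x y ↔ y.length ≤ p.eval x.length ∧ V (pairBits x y) = [true] := by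
  have hd : Poly (fun z : List Bool => pairBits (unpair z).1 ((unpair z).2.drop 1)) :=
    Pool.Agent.H622R2.poly_pairBits (Poly.fst poly_unpair)
      (p_drop (Poly.snd poly_unpair) (UPoly.const 1))
  have hf : Poly (fun z : List Bool => fin p1 p0 ((unpair z).1, unpair (unpair z).2)) :=
    (poly_fin p1 p0).comp (Poly.pair (Poly.fst poly_unpair) (poly_unpair.comp
      (Poly.snd poly_unpair)))
  have hV := IsFP.comp (IsFP.of_poly (A := A) hf) (IsFP.pair (IsFP.of_poly (A := A) Poly.id)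
    (IsFP.pair (IsFP.comp h1 (IsFP.of_poly (A := A) hd))
      (IsFP.comp h0 (IsFP.of_poly (A := A) hd))))
  simp only [unpair_pairBits] at hV
  refine ⟨_, p1 + p0 + 1, hV, fun x y => ?_⟩
  simp only [fin, unpair_pairBits, Polynomial.eval_add, Polynomial.eval_one]
  unfold Either
  cases y with
  | nil => simp
  | cons b w =>
    simp only [List.cons.injEq, List.length_cons, List.drop_one, List.tail_cons]
    cases b
    · simp only [Bool.false_eq_true, if_false, false_and, exists_false, false_or, true_and]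
      constructor
      · rintro ⟨w', rfl, h2, h3⟩
        rw [if_pos h2]
        exact ⟨by omega, h3⟩
      · rintro ⟨h2, h3⟩
        split_ifs at h3 with h4
        exact ⟨w, rfl, h4, h3⟩
    · simp only [Bool.true_eq_false, if_true, false_and, exists_false, or_false, true_and]
      constructor
      · rintro ⟨w', rfl, h2, h3⟩
        rw [if_pos h2]
        exact ⟨by omega, h3⟩
      · rintro ⟨h2, h3⟩
        split_ifs at h3 with h4
        exact ⟨w, rfl, h4, h3⟩

/-- the first bit of the second component -/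
theorem isFP_head (A : Oracle) {G : List Bool → List Bool} (hG : IsFP A G) :
    IsFP A (fun z => if (G z).head?.getD false = true then [true] else []) := by
  have h : Poly (fun z : List Bool => if z.head?.getD false = true then [true] else []) :=
    Poly.ite (Poly.decide_eq (Poly.head?_getD Poly.id false) (NPC.Poly.const true))
      (NPC.Poly.const _) (NPC.Poly.const _)
  exact IsFP.comp (IsFP.of_poly (A := A) h) hG

/-- For almost every oracle, no total search problem is hard even for the total search problems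
with unique solutions. -/
theorem main_TFUP : ∀ᵐ A ∂randomOracle, ∀ T, IsTFNP A T →
    ∃ S, IsTFNP A S ∧ (∀ x y y', S x y → S x y' → y = y') ∧ ¬ RedSearch A S T := by
  filter_upwards [main_D] with A hA T hT
  obtain ⟨L, ⟨V1, p1, hV1, h1, u1⟩, ⟨V0, p0, hV0, h0, u0⟩, hn⟩ := hA T hT
  have hL : ∀ x y, Either V1 V0 p1 p0 x y → (y.head?.getD false = true ↔ x ∈ L) := by
    rintro x y (⟨w, rfl, h2, h3⟩ | ⟨w, rfl, h2, h3⟩)
    · simpa using (h1 x).2 ⟨w, h2, h3⟩
    · simpa using (h0 x).2 ⟨w, h2, h3⟩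
  refine ⟨Either V1 V0 p1 p0, ⟨either_spec hV1 hV0 p1 p0, fun x => ?_⟩, ?_, ?_⟩
  · by_cases hx : x ∈ L
    · obtain ⟨w, h2, h3⟩ := (h1 x).1 hx
      exact ⟨true :: w, Or.inl ⟨w, rfl, h2, h3⟩⟩
    · obtain ⟨w, h2, h3⟩ := (h0 x).1 hx
      exact ⟨false :: w, Or.inr ⟨w, rfl, h2, h3⟩⟩
  · rintro x y y' hy hy'
    have e1 := hL x y hy
    have e2 := hL x y' hy'
    rcases hy with ⟨w, rfl, h2, h3⟩ | ⟨w, rfl, h2, h3⟩ <;>
      rcases hy' with ⟨w', rfl, h2', h3'⟩ | ⟨w', rfl, h2', h3'⟩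
    · rw [u1 x w w' h2 h2' h3 h3']
    · rw [← e2] at e1
      simp at e1
    · rw [← e2] at e1
      simp at e1
    · rw [u0 x w w' h2 h2' h3 h3']
  · rintro ⟨F, G, hF, hG, hred⟩
    refine hn ⟨F, _, hF, isFP_head A hG, fun x y hy => ?_⟩
    have h2 := hL _ _ (hred x y hy)
    rw [← h2]
    split_ifs with h3
    · simp [h3]
    · simp [h3]

/-- For almost every oracle, no disjoint `coNP` pair is hard even for the pairs of a set in
`UP ∩ coUP` and its complement. -/
theorem main_coPair : ∀ᵐ A ∂randomOracle, ∀ K₀ K₁ : Set (List Bool),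
    IsPair (IsCoNP A) K₀ K₁ →
    ∃ L : Set (List Bool), IsUP A L ∧ IsUP A Lᶜ ∧ ¬ RedPair A L Lᶜ K₀ K₁ := by
  filter_upwards [main_D] with A hA K₀ K₁ hK
  obtain ⟨⟨V0, p0, hV0, h0⟩, ⟨V1, p1, hV1, h1⟩, hdis⟩ := hK
  -- `true :: w` : `w` shows that `x ∉ K₁`
  have hT : IsTFNP A (Either V1 V0 p1 p0) := by
    refine ⟨either_spec hV1 hV0 p1 p0, fun x => ?_⟩
    by_cases hx : x ∈ K₁
    · have hx0 : x ∈ K₀ᶜ := fun h => hdis x ⟨h, hx⟩
      obtain ⟨w, h2, h3⟩ := (h0 x).1 hx0
      exact ⟨false :: w, Or.inr ⟨w, rfl, h2, h3⟩⟩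
    · obtain ⟨w, h2, h3⟩ := (h1 x).1 hx
      exact ⟨true :: w, Or.inl ⟨w, rfl, h2, h3⟩⟩
  obtain ⟨L, hL1, hL0, hn⟩ := hA _ hT
  refine ⟨L, hL1, hL0, ?_⟩
  rintro ⟨F, hF, hF0, hF1⟩
  have hsnd : IsFP A (fun z => (unpair z).2) := IsFP.of_poly (Poly.snd poly_unpair)
  refine hn ⟨F, _, hF, isFP_head A hsnd, fun x y hy => ?_⟩
  rw [unpair_pairBits]
  rcases hy with ⟨w, rfl, h2, h3⟩ | ⟨w, rfl, h2, h3⟩
  · have h4 : F x ∈ K₁ᶜ := (h1 _).2 ⟨w, h2, h3⟩
    have h5 : x ∈ L := by
      by_contra h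
      exact h4 (hF1 x h)
    simp [h5]
  · have h4 : F x ∈ K₀ᶜ := (h0 _).2 ⟨w, h2, h3⟩
    have h5 : x ∉ L := fun h => h4 (hF0 x h)
    simp [h5]

end Pool.Agent.TH654.TU
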