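import Pool.Agent.TH654.TU.GenZ

/-!
# The key inequality for one pair without hits
-/

set_option autoImplicit false

namespace Pool.Agent.TH654.TU

open MeasureTheory Pool.Agent.NPC Pool.Agent.H628R3.RO Pool.Agent.H628R3.RO.M2
  Pool.Agent.H673R3 Pool.Agent.H673R3.UC Pool.Agent.H673R3.UC.Q2A

theorem key_pairZ {K : Set (List Bool)} (hK : K.Finite) {Z E η : Set Oracle} (hZ : Loc K Z)
    (hE : Loc K E) (hη : Loc K η) {W₀ W₁ : Finset Cand} (hd : Disjoint W₀ W₁) {m w : ℕ}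
    (hm : 1 ≤ m) (hw0 : W₀.card = w) (hw1 : W₁.card = w) (hw : 1 ≤ w) (t : ℕ)
    (hW : ∀ κ ∈ W₀ ∪ W₁, ∀ l < m, pos κ.1 l κ.2 ∈ K)
    (hη' : ∀ (B : Oracle) (h : Finset Cand), h ⊆ W₀ ∪ W₁ →
      (plant (allSpots m h) B ∈ η ↔ B ∈ η))
    (hkey : ∀ B ∈ NoHit m (W₀ ∪ W₁), B ∈ η → B ∉ E → ∃ T : Finset Cand,
      T.card ≤ t ∧ ∀ κ ∈ W₀, ∀ κ' ∈ W₁, κ ∉ T → κ' ∉ T →
        plant (allSpots m {κ}) B ∈ Z → plant (allSpots m {κ'}) B ∈ Z → False) :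
    (w * (1 / 2) ^ m) * (1 - t / w) * (prob (η ∩ NoHit m (W₀ ∪ W₁)) -
        prob (η ∩ (NoHit m (W₀ ∪ W₁) ∩ E))) ≤
      prob (η ∩ ({A | ∃ κ ∈ W₀ ∪ W₁, A ∈ HitSet m (W₀ ∪ W₁) {κ}} ∩ Zᶜ)) := by
  classical
  set q : ℝ := (1 / 2) ^ m with hq
  have hq0 : 0 < q := by positivity
  have hq1 : q ≤ 1 / 2 := by
    rw [hq]
    calc (1 / 2 : ℝ) ^ m ≤ (1 / 2) ^ 1 := pow_le_pow_of_le_one (by norm_num) (by norm_num) hm
      _ = 1 / 2 := by norm_num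
  set N := NoHit m (W₀ ∪ W₁) with hNdef
  have hN : Loc K N := loc_noHit hW
  have hZm := measurableSet_of_loc hK hZ
  have hEm := measurableSet_of_loc hK hE
  have hηm := measurableSet_of_loc hK hη
  have hNm : MeasurableSet N := measurableSet_noHit m _
  -- the choice of `T`
  have hch : ∀ B : Oracle, ∃ T : Finset Cand,
      T.card ≤ t ∧ (B ∈ N → B ∈ η → B ∉ E →
      ∀ κ ∈ W₀, ∀ κ' ∈ W₁, κ ∉ T → κ' ∉ T → plant (allSpots m {κ}) B ∈ Z →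
        plant (allSpots m {κ'}) B ∈ Z → False) := by
    intro B
    by_cases h1 : B ∈ N ∧ B ∈ η ∧ B ∉ E
    · obtain ⟨T, hT, hT2⟩ := hkey B h1.1 h1.2.1 h1.2.2
      exact ⟨T, hT, fun _ _ _ => hT2⟩
    · exact ⟨∅, by simp, fun h2 h3 h4 => absurd ⟨h2, h3, h4⟩ h1⟩
  choose T hT1 hT2 using hch
  have hmask : ∀ B : Oracle, ∀ x ∈ K, mask K B x = B x := fun B x hx => mask_eq hx
  set Ak : Cand → Set Oracle := fun κ => {B | κ ∈ T (mask K B)} with hAk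
  have hAl : ∀ κ, Loc K (Ak κ) := by
    intro κ A A' h
    simp only [hAk, Set.mem_ofPred_eq, mask_congr h]
  have hAm : ∀ κ, MeasurableSet (Ak κ) := fun κ => measurableSet_of_loc hK (hAl κ)
  set S0 : Set Oracle := (η ∩ N) ∩ Eᶜ with hS0
  have hS0m : MeasurableSet S0 := (hηm.inter hNm).inter hEm.compl
  set ν : ℝ := prob S0 with hν
  have hν0 : 0 ≤ ν := prob_nonneg _
  have hνeq : ν = prob (η ∩ N) - prob (η ∩ (N ∩ E)) := by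
    have h1 := prob_inter_add_compl (η ∩ N) hEm
    rw [Set.inter_assoc η N E] at h1
    rw [hν, hS0]
    linarith
  set z : Cand → ℝ := fun κ => prob (plant (allSpots m {κ}) ⁻¹' (η ∩ Zᶜ) ∩ N) with hz
  have hz0 : ∀ κ, 0 ≤ z κ := fun κ => prob_nonneg _
  set p : Cand → ℝ := fun κ => prob (S0 ∩ Ak κ) with hp
  -- the bound for one pair of candidates
  have hone : ∀ κ ∈ W₀, ∀ κ' ∈ W₁, ν ≤ z κ + (z κ' + (p κ + p κ')) := by
    intro κ hκ κ' hκ'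
    have hs0 : ({κ} : Finset Cand) ⊆ W₀ ∪ W₁ :=
      Finset.singleton_subset_iff.2 (Finset.mem_union_left _ hκ)
    have hs1 : ({κ'} : Finset Cand) ⊆ W₀ ∪ W₁ :=
      Finset.singleton_subset_iff.2 (Finset.mem_union_right _ hκ')
    have h1 : S0 ⊆ (plant (allSpots m {κ}) ⁻¹' (η ∩ Zᶜ) ∩ N) ∪
        ((plant (allSpots m {κ'}) ⁻¹' (η ∩ Zᶜ) ∩ N) ∪ ((S0 ∩ Ak κ) ∪ (S0 ∩ Ak κ'))) := by
      rintro B ⟨⟨hBη, hBN⟩, hBE⟩
      by_cases c1 : plant (allSpots m {κ}) B ∈ Z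
      swap
      · exact Or.inl ⟨⟨(hη' B _ hs0).2 hBη, c1⟩, hBN⟩
      by_cases c2 : plant (allSpots m {κ'}) B ∈ Z
      swap
      · exact Or.inr (Or.inl ⟨⟨(hη' B _ hs1).2 hBη, c2⟩, hBN⟩)
      by_cases c3 : B ∈ Ak κ
      · exact Or.inr (Or.inr (Or.inl ⟨⟨⟨hBη, hBN⟩, hBE⟩, c3⟩))
      by_cases c4 : B ∈ Ak κ'
      · exact Or.inr (Or.inr (Or.inr ⟨⟨⟨hBη, hBN⟩, hBE⟩, c4⟩))
      have h2 : mask K B ∈ N := (hN _ _ (hmask B)).2 hBN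
      have h3 : mask K B ∈ η := (hη _ _ (hmask B)).2 hBη
      have h4 : mask K B ∉ E := fun h => hBE ((hE _ _ (hmask B)).1 h)
      exact (hT2 (mask K B) h2 h3 h4 κ hκ κ' hκ' c3 c4
        ((loc_plant hZ (allSpots m {κ}) _ _ (hmask B)).2 c1)
        ((loc_plant hZ (allSpots m {κ'}) _ _ (hmask B)).2 c2)).elim
    refine (prob_mono h1).trans ?_
    refine (prob_union_le _ _).trans (add_le_add le_rfl ?_)
    refine (prob_union_le _ _).trans (add_le_add le_rfl ?_)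
    exact prob_union_le _ _
  have hcount : ∑ κ ∈ W₀ ∪ W₁, p κ ≤ t * ν := by
    apply sum_prob_le hS0m (W₀ ∪ W₁) Ak hAm t
    intro B _
    exact ⟨T (mask K B), hT1 _, fun κ _ hκ => hκ⟩
  have hw' : (0 : ℝ) < w := by exact_mod_cast (by omega : 0 < w)
  -- the sum over all pairs
  have hsum : (w : ℝ) * ν ≤ (∑ κ ∈ W₀ ∪ W₁, z κ) + t * ν := by
    have h1 : ∑ x ∈ W₀ ×ˢ W₁, ν ≤ ∑ x ∈ W₀ ×ˢ W₁, (z x.1 + (z x.2 + (p x.1 + p x.2))) :=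
      Finset.sum_le_sum fun x hx => hone x.1 (Finset.mem_product.1 hx).1 x.2
        (Finset.mem_product.1 hx).2
    simp only [Finset.sum_add_distrib] at h1
    rw [Finset.sum_const, Finset.card_product, hw0, hw1, nsmul_eq_mul] at h1
    have s1 : ∀ f : Cand → ℝ, ∑ x ∈ W₀ ×ˢ W₁, f x.1 = w * ∑ κ ∈ W₀, f κ := by
      intro f
      rw [Finset.sum_product, Finset.mul_sum]
      refine Finset.sum_congr rfl fun κ _ => ?_
      change ∑ _y ∈ W₁, f κ = w * f κ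
      rw [Finset.sum_const, hw1, nsmul_eq_mul]
    have s2 : ∀ f : Cand → ℝ, ∑ x ∈ W₀ ×ˢ W₁, f x.2 = w * ∑ κ ∈ W₁, f κ := by
      intro f
      rw [Finset.sum_product]
      change ∑ _x ∈ W₀, ∑ κ ∈ W₁, f κ = w * ∑ κ ∈ W₁, f κ
      rw [Finset.sum_const, hw0, nsmul_eq_mul]
    rw [s1 z, s2 z, s1 p, s2 p] at h1
    rw [Finset.sum_union hd] at hcount ⊢
    have h2 : (w : ℝ) * (w * ν) ≤ w * ((∑ κ ∈ W₀, z κ + ∑ κ ∈ W₁, z κ) + t * ν) := by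
      have h3 := mul_le_mul_of_nonneg_left hcount hw'.le
      push_cast at h1
      nlinarith
    exact le_of_mul_le_mul_left h2 hw'
  -- one hit
  have hZs := sum_hit (hηm.inter hZm.compl) m (W₀ ∪ W₁) (W₀ ∪ W₁) (fun κ => {κ})
    (fun κ hκ => Finset.singleton_subset_iff.2 hκ) 1 (fun κ _ => Finset.card_singleton κ)
    (fun κ _ κ' _ h => Finset.singleton_injective h)
  rw [← hq, pow_one, pow_one] at hZs
  have hset1 : (η ∩ Zᶜ) ∩ {A | ∃ κ ∈ W₀ ∪ W₁, A ∈ HitSet m (W₀ ∪ W₁) {κ}} =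
      η ∩ ({A | ∃ κ ∈ W₀ ∪ W₁, A ∈ HitSet m (W₀ ∪ W₁) {κ}} ∩ Zᶜ) := by
    rw [Set.inter_assoc, Set.inter_comm Zᶜ]
  rw [hset1] at hZs
  set Y : ℝ := prob (η ∩ ({A | ∃ κ ∈ W₀ ∪ W₁, A ∈ HitSet m (W₀ ∪ W₁) {κ}} ∩ Zᶜ)) with hY
  have hY0 : 0 ≤ Y := prob_nonneg _
  rw [← hνeq]
  have e1 : (w : ℝ) * q * (1 - t / w) * ν = q * (w * ν - t * ν) := by
    field_simp
  rw [e1]
  calc q * (w * ν - t * ν) ≤ q * ∑ κ ∈ W₀ ∪ W₁, z κ :=
        mul_le_mul_of_nonneg_left (by linarith) hq0.le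
    _ = (1 - q) * Y := hZs
    _ ≤ Y := by nlinarith

end Pool.Agent.TH654.TU
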