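import Pool.Agent.TH654.TU.PairZ

/-!
# The stages: blocks with one low pair, which has no hit
-/

set_option autoImplicit false

namespace Pool.Agent.TH654.TU

open MeasureTheory Pool.Agent.NPC Pool.Agent.H628R3.RO Pool.Agent.H673R3 Pool.Agent.H673R3.UC

/-! ### Numbers -/

/-- the bound for the probability of `Two` -/
noncomputable def e2 (s : ℕ) : ℝ := 80 * ee s

theorem e2_nonneg (s : ℕ) : 0 ≤ e2 s := mul_nonneg (by norm_num) (ee_nonneg s)

theorem summable_e2 : Summable e2 := summable_ee.mul_left 80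

theorem e2_le {s : ℕ} (hs : 4 ≤ s) : e2 s ≤ 1 / 16 := by
  have h1 := N3_ee hs (a := 80) (by norm_num)
  have h2 := ee_nonneg s
  have h3 : (3 : ℝ) ≤ rr s := by exact_mod_cast three_le_rr hs
  unfold e2
  nlinarith

theorem lp_eq (n s : ℕ) : zp n s + op n s = lp n s := rfl

theorem one_le_KK (s : ℕ) : 1 ≤ KK s := Nat.le_add_left _ _

attribute [local irreducible] uu vv KK BB rr mm ap zp

theorem prob_Two_le {n s : ℕ} (hs : 4 ≤ s) (hn : s ≤ n) : prob (Two n s) ≤ e2 s := by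
  have h1 := prob_TwoG_le (sys_N hs hn)
  rw [lp_eq] at h1
  have h2 := two_num hs hn
  have h3 := bad_hi hs hn
  unfold Two e2
  linarith

/-- the main term -/
noncomputable def MM (n s : ℕ) : ℝ := BB s * KK s * (zp n s * (1 - lp n s) ^ (KK s - 1))

theorem MM_ge {n s : ℕ} (hs : 4 ≤ s) (hn : s ≤ n) :
    64 * (BB s * (1 - lp n s) ^ KK s) ≤ MM n s := by
  have hK := K_lo hs hn
  have hl := lp_le hs hn
  have hz := zp_pos n s
  have hlp0 : 0 ≤ lp n s := by
    have h1 := N2b_lp_ge n s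
    have h2 : (0 : ℝ) ≤ (2 * rr s + 1) * zp n s :=
      mul_nonneg (by positivity) hz.le
    exact h2.trans h1
  have hK1 : 1 ≤ KK s := one_le_KK s
  have hp : 0 ≤ (1 - lp n s) ^ (KK s - 1) := pow_nonneg (by linarith) _
  have h1 : (1 - lp n s) ^ KK s ≤ (1 - lp n s) ^ (KK s - 1) := by
    apply pow_le_pow_of_le_one (by linarith) (by linarith) (by omega)
  unfold MM
  calc 64 * (BB s * (1 - lp n s) ^ KK s) ≤ (KK s * zp n s) * (BB s * (1 - lp n s) ^ (KK s - 1)) :=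
        mul_le_mul hK (mul_le_mul_of_nonneg_left h1 (Nat.cast_nonneg _))
          (mul_nonneg (Nat.cast_nonneg _) (pow_nonneg (by linarith) _)) (by linarith)
    _ = _ := by ring

theorem prob_Two_ge {n s : ℕ} (hs : 4 ≤ s) (hn : s ≤ n) : 63 / 64 * MM n s ≤ prob (Two n s) := by
  have h1 := prob_TwoG_ge (sys_N hs hn) (by rw [lp_eq]; exact quiet_num hs hn)
  rw [lp_eq] at h1
  exact h1

theorem prob_Two_pos {n s : ℕ} (hs : 4 ≤ s) (hn : s ≤ n) :
    63 * ((1 / 2 : ℝ) ^ (rr s + 12) / (rr s : ℝ) ^ 2) ≤ prob (Two n s) := by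
  have h1 := prob_Two_ge hs hn
  have h2 := MM_ge hs hn
  have h3 := bad_lo hs hn
  linarith

theorem prob_Inv_le_Two {n s : ℕ} (hs : 4 ≤ s) (hn : s ≤ n) :
    prob (UC.Inv n s) ≤ 2 * prob (Two n s) := by
  have h1 := prob_BadG_le (sys_N hs hn)
  rw [lp_eq] at h1
  have h2 := MM_ge hs hn
  have h3 := prob_Two_ge hs hn
  have h4 := M2.prob_union_le (Bad n s) (Two n s)
  have h5 : prob (Bad n s) ≤ BB s * (1 - lp n s) ^ KK s := h1
  have h6 := M2.prob_nonneg (Bad n s)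
  unfold UC.Inv
  linarith

theorem ll_num2 {n s : ℕ} (hs : 4 ≤ s) (hn : s ≤ n) :
    ll s ≤ 63 / 64 * rr s * (1 / 2 * MM n s) := by
  have h1 := MM_ge hs hn
  have h2 := bad_lo hs hn
  have hr : (3 : ℝ) ≤ rr s := by exact_mod_cast three_le_rr hs
  have h5 : (0 : ℝ) < rr s := by linarith
  have h3 : 64 * ((1 / 2 : ℝ) ^ (rr s + 12) / (rr s : ℝ) ^ 2) ≤ MM n s := by linarith
  have e : (1 / 2 : ℝ) ^ (rr s + 12) = (1 / 2) ^ (rr s + 8) * (1 / 16) := by
    rw [show rr s + 12 = (rr s + 8) + 4 by ring, pow_add]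
    norm_num
  rw [e] at h3
  set x : ℝ := (1 / 2 : ℝ) ^ (rr s + 8) with hx
  have hx0 : 0 < x := by positivity
  calc ll s = x / rr s := rfl
    _ ≤ 63 / 64 * rr s * (1 / 2 * (64 * (x * (1 / 16) / (rr s : ℝ) ^ 2))) := by
        have e2 : 63 / 64 * (rr s : ℝ) * (1 / 2 * (64 * (x * (1 / 16) / (rr s : ℝ) ^ 2))) =
            63 / 32 * (x / rr s) := by
          field_simp
          norm_num
        rw [e2]
        have : 0 ≤ x / rr s := by positivity
        linarith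
    _ ≤ _ := by
        apply mul_le_mul_of_nonneg_left _ (by positivity)
        linarith

theorem loc_Two (n s : ℕ) : Loc (spotsB n s) (Two n s) := by
  intro A A' h
  unfold Two TwoG
  simp only [Set.mem_ofPred_eq]
  exact exists_congr fun b => and_congr_right fun hb => exists_congr fun j =>
    and_congr_right fun hj => and_congr (loc_Others hb A A' h)
      (loc_Zero n s b j A A' fun x hx => h x (sp_subset hb hj hx))

/-! ### The key inequality -/

private theorem St_two_q (n : ℕ) : (2 : ℝ) ^ wl n * (1 / 2 : ℝ) ^ wl n = 1 := by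
  rw [← mul_pow]; norm_num

private theorem St_w {n s : ℕ} (hs : 4 ≤ s) : 1 ≤ rr s * 2 ^ wl n := by
  have h1 := three_le_rr hs
  have h2 : 1 ≤ 2 ^ wl n := Nat.one_le_two_pow
  nlinarith

private theorem St_delta {n s t : ℕ} (hs : 4 ≤ s) (ht : t ≤ 2 ^ n) :
    (t : ℝ) / ((rr s * 2 ^ wl n : ℕ) : ℝ) ≤ 1 / 64 := by
  have h2 : 64 * 2 ^ n ≤ rr s * 2 ^ wl n := by
    have h3 := three_le_rr hs
    have h4 : 2 ^ wl n = 2 ^ n * 2 ^ (n + 16) := by
      rw [← pow_add]; congr 1; unfold wl; omega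
    have h5 : 64 ≤ 2 ^ (n + 16) := by
      calc 64 ≤ 2 ^ 16 := by norm_num
        _ ≤ 2 ^ (n + 16) := Nat.pow_le_pow_right (by norm_num) (by omega)
    rw [h4]
    calc 64 * 2 ^ n = 1 * (2 ^ n * 64) := by ring
      _ ≤ rr s * (2 ^ n * 2 ^ (n + 16)) :=
        Nat.mul_le_mul (by omega) (Nat.mul_le_mul_left _ h5)
  have h3 : 64 * t ≤ rr s * 2 ^ wl n := le_trans (Nat.mul_le_mul_left _ ht) h2
  have h4 : (64 : ℝ) * (t : ℝ) ≤ ((rr s * 2 ^ wl n : ℕ) : ℝ) := by
    exact_mod_cast h3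
  have h5 : (0 : ℝ) < ((rr s * 2 ^ wl n : ℕ) : ℝ) := by
    have := St_w (n := n) hs
    exact_mod_cast (by generalize rr s * 2 ^ wl n = N at this ⊢; omega : 0 < rr s * 2 ^ wl n)
  rw [div_le_iff₀ h5]
  linarith

/-- everything depends on short strings -/
private theorem St_fin {n s t₀ k b j : ℕ} (hb : b < BB s) (hj : j < KK s)
    {η Z E : Set Oracle} (hη : Loc {x | x.length ≤ t₀} η) (hZ : Loc {x | x.length ≤ k} Z)
    (hE : Loc {x | x.length ≤ k} E) : ∃ K : Set (List Bool), K.Finite ∧ Loc K Z ∧ Loc K E ∧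
      Loc K (η ∩ (Quiet n s b ∩ Others n s b j)) ∧
      ∀ κ ∈ half n s b (2 * j) ∪ half n s b (2 * j + 1), ∀ l < wl n, pos κ.1 l κ.2 ∈ K := by
  obtain ⟨L, hL⟩ : ∃ L, ∀ x ∈ spotsB n s, x.length ≤ L :=
    ⟨(spotsB n s).sup List.length, fun x hx => Finset.le_sup (f := List.length) hx⟩
  have hsp : (spotsB n s : Set (List Bool)) ⊆ {x | x.length ≤ max L (max k t₀)} :=
    fun x hx => (hL x hx).trans (le_max_left _ _)
  have hkK : {x : List Bool | x.length ≤ k} ⊆ {x | x.length ≤ max L (max k t₀)} := by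
    intro x hx
    have hx' : x.length ≤ k := hx
    have : x.length ≤ max L (max k t₀) := by omega
    exact this
  have htK : {x : List Bool | x.length ≤ t₀} ⊆ {x | x.length ≤ max L (max k t₀)} := by
    intro x hx
    have hx' : x.length ≤ t₀ := hx
    have : x.length ≤ max L (max k t₀) := by omega
    exact this
  refine ⟨{x | x.length ≤ max L (max k t₀)}, List.finite_length_le Bool _,
    M2.Loc.mono hZ hkK, M2.Loc.mono hE hkK,
    M2.Loc.inter (M2.Loc.mono hη htK) (M2.Loc.inter (M2.Loc.mono (loc_Quiet n s b) hsp)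
      (M2.Loc.mono (loc_Others hb) hsp)), ?_⟩
  intro κ hκ l hl
  exact hsp (pos_mem_spotsB (pair_subset hb hj hκ) hl)

private theorem St_inv {n s t₀ b j : ℕ} (ht₀ : t₀ < n) (hb : b < BB s) (hj : j < KK s)
    {η : Set Oracle} (hη : Loc {x | x.length ≤ t₀} η) (B : Oracle) (h : Finset Cand)
    (hh : h ⊆ half n s b (2 * j) ∪ half n s b (2 * j + 1)) :
    (plant (allSpots (wl n) h) B ∈ η ∩ (Quiet n s b ∩ Others n s b j) ↔
      B ∈ η ∩ (Quiet n s b ∩ Others n s b j)) := by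
  have hh' : h ⊆ pair n s b j := hh
  have e1 := plant_short (n := n) (s := s) ht₀.le hη (hh'.trans (pair_subset hb hj)) B
  have e2 := plant_Quiet (n := n) (b := b) hj hh' B
  have e3 := plant_Others (n := n) (b := b) hj hh' B
  simp only [Set.mem_inter_iff]
  rw [e1, e2, e3]

private theorem St_disj {n s t₀ : ℕ} (ht₀ : t₀ < n) : ∀ b < BB s, ∀ i < KK s,
    Disjoint {x : List Bool | x.length ≤ t₀} (sp n s b i) := by
  intro b hb i hi
  rw [Set.disjoint_left]
  intro x hx hx'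
  have h1 : x.length ≤ t₀ := hx
  have h2 := lt_length_spotsB x (Finset.mem_coe.1 (sp_subset hb hi hx'))
  omega

theorem key_blocksT {n s t₀ t k : ℕ} (hs : 4 ≤ s) (hsn : s ≤ n) (ht₀ : t₀ < n)
    {η Z E : Set Oracle} (hη : Loc {x | x.length ≤ t₀} η) (hZ : Loc {x | x.length ≤ k} Z)
    (hE : Loc {x | x.length ≤ k} E) (ht : t ≤ 2 ^ n)
    (hkey : ∀ b < BB s, ∀ j < KK s, ∀ B ∈ Others n s b j, B ∈ Zero n s b j → B ∉ E →
      ∃ T : Finset Cand, T.card ≤ t ∧
      ∀ κ ∈ half n s b (2 * j), ∀ κ' ∈ half n s b (2 * j + 1), κ ∉ T → κ' ∉ T →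
        plant (allSpots (wl n) {κ}) B ∈ Z → plant (allSpots (wl n) {κ'}) B ∈ Z → False) :
    ll s * (7 / 8 * prob η - prob (η ∩ (Two n s ∩ E)) / prob (Two n s)) ≤
      prob (η ∩ Zᶜ) := by
  refine key_genZ (sys_N hs hsn) (List.finite_length_le Bool t₀) (St_disj ht₀) hη
    (measurableSet_of_loc (List.finite_length_le Bool k) hZ)
    (measurableSet_of_loc (List.finite_length_le Bool k) hE)
    (by rw [lp_eq]; exact quiet_num hs hsn) (c := 63 / 64 * rr s) (by positivity) (ll_nonneg s)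
    (by rw [lp_eq]; exact ll_num2 hs hsn) ?_
  intro b hb j hj
  obtain ⟨K, hK, lZ, lE, lη, hpos⟩ := St_fin (n := n) hb hj hη hZ hE
  have key := key_pairZ hK lZ lE lη (half_disjoint n s b j) (m := wl n)
    (w := rr s * 2 ^ wl n) (by unfold wl; omega) (card_half _ _ _ _) (card_half _ _ _ _)
    (St_w hs) t hpos (St_inv ht₀ hb hj hη)
    (by
      rintro B hB ⟨_, _, hO⟩ hBE
      exact hkey b hb j hj B hO hB hBE)
  refine le_trans ?_ key
  have h1 : prob ((η ∩ (Quiet n s b ∩ Others n s b j)) ∩ (Zero n s b j ∩ E)) ≤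
      prob ((η ∩ (Quiet n s b ∩ Others n s b j)) ∩ Zero n s b j) :=
    M2.prob_mono fun A hA => ⟨hA.1, hA.2.1⟩
  have h2 := St_delta hs ht
  have h3 : (63 / 64 : ℝ) ≤ 1 - (t : ℝ) / ((rr s * 2 ^ wl n : ℕ) : ℝ) := by linarith
  have h4 : (((rr s * 2 ^ wl n : ℕ) : ℝ) * (1 / 2) ^ wl n) = rr s := by
    push_cast
    rw [mul_assoc, St_two_q, mul_one]
  rw [h4]
  refine mul_le_mul_of_nonneg_right ?_ (sub_nonneg.2 h1)
  rw [mul_comm]
  exact mul_le_mul_of_nonneg_left h3 (Nat.cast_nonneg _)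

end Pool.Agent.TH654.TU
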