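import Pool.Agent.H673R3.UC.Z1
import Pool.Agent.H628R3.RO.K5

/-!
# Relative to a random oracle no language in `UP` is hard for `UP ∩ coUP`
-/

set_option autoImplicit false

namespace Pool.Agent.TH654.TU

open MeasureTheory Pool.Agent.NPC Pool.Agent.H628R3.RO Pool.Agent.H673R3 Pool.Agent.H673R3.UC

theorem loc_GoodU' (V : Alg) (p : Polynomial ℕ) (r : Alg) : ∃ b : Polynomial ℕ,
    ∀ n s, s ≤ n → Loc {x | x.length ≤ b.eval (2 ^ n)} (UC.GoodU V p r n s) := by
  obtain ⟨bw, hbw⟩ := wit_congr V p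
  obtain ⟨qr, hqr⟩ := r.out_congr
  obtain ⟨br, hbr⟩ := r.out_length
  obtain ⟨P, hP⟩ := inst_length
  obtain ⟨S, hS⟩ := length_spotsB
  refine ⟨S + qr.comp P + bw.comp (br.comp P),
    fun n s hs => loc_of_imp fun A A' h => ?_⟩
  have hn2 : n ≤ 2 ^ n := Nat.lt_two_pow_self.le
  have h' : ∀ z : List Bool, z.length ≤ S.eval (2 ^ n) + qr.eval (P.eval (2 ^ n)) +
      bw.eval (br.eval (P.eval (2 ^ n))) → A z = A' z := by
    intro z hz
    apply h z
    change z.length ≤ _
    simpa only [Polynomial.eval_add, Polynomial.eval_comp] using hz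
  have hspots : ∀ x ∈ spotsB n s, A x = A' x := by
    intro x hx
    apply h'
    have h1 := hS n s hs x hx
    have h2 := eval_mono S hn2
    omega
  intro hG b hb j hj hO'
  have hO : A ∈ Others n s b j := (loc_Others hb A A' hspots).mpr hO'
  have hj2 : 2 * j < 2 * KK s := by omega
  obtain ⟨y, hy, hy0⟩ := hG b hb j hj hO
  have hinst : inst n s b j A = inst n s b j A' := inst_congr hb hspots
  have hlen : (inst n s b j A).length ≤ P.eval (2 ^ n) :=
    (hP n s b j A hs hb hj).trans (eval_mono P hn2)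
  have hylen : y.length ≤ br.eval (P.eval (2 ^ n)) :=
    (hbr A _ y hy).trans (eval_mono br hlen)
  have hloc := loc_noHitHalf (n := n) hb hj2 A A' hspots
  refine ⟨y, ?_, ?_⟩
  · rw [← hinst, ← hy]
    symm
    refine hqr A A' _ (P.eval (2 ^ n)) hlen fun z hz => h' z ?_
    omega
  · have e1 : Wit V p y A → Wit V p y A' := hbw A A' y _ hylen (fun z hz => h' z (by omega))
    have e2 : Wit V p y A' → Wit V p y A :=
      hbw A' A y _ hylen (fun z hz => (h' z (by omega)).symm)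
    rw [← not_congr hloc, hy0]
    exact ⟨e1, e2⟩

theorem key_U' (V : Alg) (p : Polynomial ℕ) (r : Alg) : ∃ n0, ∀ n ≥ n0, ∀ s,
    4 ≤ s → s ≤ n → ∀ t < n, ∀ η : Set Oracle, Loc {x | x.length ≤ t} η →
    ll s * (7 / 8 * prob η - prob (η ∩ (Bad n s ∩ ErrU V p n)) / prob (Bad n s)) ≤
      prob (η ∩ (UC.GoodU V p r n s)ᶜ) := by
  classical
  obtain ⟨bE, hbE⟩ := loc_ErrU V p
  obtain ⟨bG, hbG⟩ := loc_GoodU' V p r
  obtain ⟨bl, hbl⟩ := r.out_length
  obtain ⟨qr, hqr⟩ := r.out_local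
  obtain ⟨qV, hqV⟩ := V.out_local
  obtain ⟨P, hP⟩ := inst_length
  obtain ⟨n1, hn1⟩ := poly_le_two_pow (bl.comp P)
  obtain ⟨n2, hn2⟩ := poly_le_two_pow
    (r.p.comp P + 2 * V.p.comp (2 * bl.comp P + 1 + p.comp (bl.comp P)))
  refine ⟨max n1 n2, fun n hn s hs4 hsn t ht η hη => ?_⟩
  have hn1' := hn1 n (le_trans (le_max_left _ _) hn)
  have hn2' := hn2 n (le_trans (le_max_right _ _) hn)
  simp only [Polynomial.eval_comp, Polynomial.eval_add, Polynomial.eval_mul,
    Polynomial.eval_ofNat, Polynomial.eval_one] at hn1' hn2'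
  refine key_blocksU (k := bE.eval (2 ^ n) + bG.eval (2 ^ n)) hs4 hsn ht hη
    (Loc.mono (fun x hx => by simp only [Set.mem_ofPred_eq] at hx ⊢; omega) (hbG n s hsn))
    (Loc.mono (fun x hx => by simp only [Set.mem_ofPred_eq] at hx ⊢; omega) (hbE n)) hn2' ?_
  intro b hb j hj B hBO hBZ
  set m := wl n with hm
  set W := pair n s b j with hWdef
  -- the instance
  set x : List Bool := inst n s b j B with hx
  have hxlen : x.length ≤ P.eval n := hP n s b j B hsn hb hj
  have hxp : ∀ h : Finset Cand, h ⊆ W → inst n s b j (plant (allSpots m h) B) = x :=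
    fun h hh => inst_plant hj hh B
  set x0 : List Bool := (r.out B x).getD [] with hx0
  have hx0len : x0.length ≤ bl.eval (P.eval n) := by
    rw [hx0]
    cases h : r.out B x with
    | none => simp
    | some z =>
      have := (hbl B _ z h).trans (eval_mono bl hxlen)
      simpa using this
  obtain ⟨Q0, hQ0c, -, hQ0⟩ := hqr B x
  obtain ⟨T, hTc, hT⟩ := touch W m Q0
  -- the witnesses
  have hch : ∀ (κ : Cand), ∃ y : List Bool, y.length ≤ p.eval x0.length ∧
      (Wit V p x0 (plant (allSpots m {κ}) B) →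
        V.out (plant (allSpots m {κ}) B) (pairBits x0 y) = some [true]) := by
    intro κ
    by_cases hw : Wit V p x0 (plant (allSpots m {κ}) B)
    · obtain ⟨y, hy1, hy2⟩ := hw
      exact ⟨y, hy1, fun _ => hy2⟩
    · exact ⟨[], by simp, fun h' => absurd h' hw⟩
  choose yy hyy1 hyy2 using hch
  choose Q1 hQ1c hQ1l hQ1 using fun (κ : Cand) =>
    hqV (plant (allSpots m {κ}) B) (pairBits x0 (yy κ))
  choose Q2 hQ2c hQ2l hQ2 using fun (κ : Cand) => hqV B (pairBits x0 (yy κ))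
  choose T' hT'c hT' using fun (κ : Cand) => touch W m (Q1 κ ∪ Q2 κ)
  have hplen : ∀ κ, (pairBits x0 (yy κ)).length ≤
      2 * bl.eval (P.eval n) + 1 + p.eval (bl.eval (P.eval n)) := by
    intro κ
    rw [length_pairBits]
    have h1 := (hyy1 κ).trans (eval_mono p hx0len)
    omega
  refine ⟨T, T', hTc.trans (hQ0c.trans ((eval_mono r.p hxlen).trans (Nat.le_add_right _ _))),
    fun κ => ?_, ?_⟩
  · refine (hT'c κ).trans ((Finset.card_union_le _ _).trans ?_)
    have h1 := (hQ1c κ).trans (eval_mono V.p (hplen κ))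
    have h2 := (hQ2c κ).trans (eval_mono V.p (hplen κ))
    omega
  · intro κ hκ κ' hκ' ρ hρ hne hκT hκ'T hρT hT1 hT2 hT3 hG hG' hGρ
    have hκW : κ ∈ W := Finset.mem_union_left _ hκ
    have hκ'W : κ' ∈ W := Finset.mem_union_left _ hκ'
    have hρW : ρ ∈ W := Finset.mem_union_right _ hρ
    have hWit : ∀ σ ∈ W, σ ∉ T → plant (allSpots m {σ}) B ∈ UC.GoodU V p r n s →
        (plant (allSpots m {σ}) B ∉ NoHit m (half n s b (2 * j)) ↔
          Wit V p x0 (plant (allSpots m {σ}) B)) := by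
      intro σ hσ hσT hσG
      have hhi : ({σ} : Finset Cand) ⊆ W := Finset.singleton_subset_iff.2 hσ
      have hOi : plant (allSpots m {σ}) B ∈ Others n s b j := (plant_Others hj hhi B).mpr hBO
      obtain ⟨y, hy, hy0⟩ := hσG b hb j hj hOi
      have h1 : r.out (plant (allSpots m {σ}) B) x = r.out B x :=
        hQ0 _ fun q hq => hT {σ} hhi (Finset.disjoint_singleton_left.2 hσT) B q hq
      rw [hxp _ hhi, h1] at hy
      have hyx : y = x0 := by
        rw [hx0, hy]
        rfl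
      rw [hyx] at hy0
      exact hy0
    have hleft : ∀ σ ∈ half n s b (2 * j), plant (allSpots m {σ}) B ∉
        NoHit m (half n s b (2 * j)) := fun σ hσ hno =>
      hno σ hσ (M2.hit_plant_self (Finset.mem_singleton_self σ) B)
    have hw1 : Wit V p x0 (plant (allSpots m {κ}) B) := (hWit κ hκW hκT hG).1 (hleft κ hκ)
    have hw2 : Wit V p x0 (plant (allSpots m {κ'}) B) := (hWit κ' hκ'W hκ'T hG').1 (hleft κ' hκ')
    have hw3 : ¬ Wit V p x0 (plant (allSpots m {ρ}) B) := by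
      rw [← hWit ρ hρW hρT hGρ, not_not]
      intro σ hσ hhit
      have hne' : σ ∉ ({ρ} : Finset Cand) := by
        rw [Finset.mem_singleton]
        rintro rfl
        exact Finset.disjoint_left.1 (half_disjoint n s b j) hσ hρ
      exact hBZ σ (Finset.mem_union_left _ hσ) ((M2.hit_plant hne' B).1 hhit)
    have h3 : plant (allSpots m {κ, κ'}) B =
        plant (allSpots m {κ'}) (plant (allSpots m {κ}) B) := by
      rw [show ({κ, κ'} : Finset Cand) = {κ} ∪ {κ'} from rfl]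
      exact plant_union m _ _ B
    have h4 : plant (allSpots m {κ, κ'}) B =
        plant (allSpots m {κ}) (plant (allSpots m {κ'}) B) := by
      rw [show ({κ, κ'} : Finset Cand) = {κ} ∪ {κ'} from rfl, Finset.union_comm]
      exact plant_union m _ _ B
    have hs : ∀ σ ∈ W, ({σ} : Finset Cand) ⊆ W := fun σ hσ => Finset.singleton_subset_iff.2 hσ
    have ho1 : V.out (plant (allSpots m {κ, κ'}) B) (pairBits x0 (yy κ)) = some [true] := by
      rw [← hyy2 κ hw1, h3]
      exact hQ1 κ _ fun q hq => hT' κ {κ'} (hs κ' hκ'W)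
        (Finset.disjoint_singleton_left.2 hT1) _ q (Finset.mem_union_left _ hq)
    have ho2 : V.out (plant (allSpots m {κ, κ'}) B) (pairBits x0 (yy κ')) = some [true] := by
      rw [← hyy2 κ' hw2, h4]
      exact hQ1 κ' _ fun q hq => hT' κ' {κ} (hs κ hκW)
        (Finset.disjoint_singleton_left.2 hT2) _ q (Finset.mem_union_left _ hq)
    refine ⟨x0, hx0len.trans hn1', yy κ, yy κ', ?_, hyy1 κ, hyy1 κ', ho1, ho2⟩
    intro heq
    -- the common witness is accepted without hits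
    have e1 : V.out (plant (allSpots m {κ'}) B) (pairBits x0 (yy κ)) =
        V.out B (pairBits x0 (yy κ)) :=
      hQ2 κ _ fun q hq => hT' κ {κ'} (hs κ' hκ'W)
        (Finset.disjoint_singleton_left.2 hT1) _ q (Finset.mem_union_right _ hq)
    have e2 : V.out (plant (allSpots m {ρ}) B) (pairBits x0 (yy κ)) =
        V.out B (pairBits x0 (yy κ)) :=
      hQ2 κ _ fun q hq => hT' κ {ρ} (hs ρ hρW)
        (Finset.disjoint_singleton_left.2 hT3) _ q (Finset.mem_union_right _ hq)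
    apply hw3
    refine ⟨yy κ, hyy1 κ, ?_⟩
    rw [e2, ← e1, heq]
    exact hyy2 κ' hw2

/-- the core -/
theorem ae_U' (V : Alg) (p : Polynomial ℕ) : ∃ b : Polynomial ℕ,
    Check Bad (fun n _ => ErrU V p n) b ∧
    ∀ᵐ A ∂randomOracle, (∀ n s, A ∉ Bad n s ∩ ErrU V p n) →
      ∃ (t : ℕ) (L : List (List Bool)),
      (∃ i0, ∀ i ≥ i0, A ∉ UC.Inv (Tt b t i) (H628R3.RO.lev Bad (fun n _ => ErrU V p n) t L (Tt b t) i)) ∧
      ∀ (r : Alg) (i0 : ℕ), ∃ i ≥ i0,
        A ∉ UC.GoodU V p r (Tt b t i) (H628R3.RO.lev Bad (fun n _ => ErrU V p n) t L (Tt b t) i) := by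
  obtain ⟨b, hc⟩ := check_BU V p
  refine ⟨b, hc, ?_⟩
  exact Pool.Agent.H583R2.NC.core_gen (R := Alg) Bad UC.Inv (fun n _ => ErrU V p n)
    (UC.GoodU V p) spotsB
    (fun n s => lt_length_spotsB) (fun n n' s s' h => disjoint_spotsB n n' s s' h)
    loc_Bad (fun n s => measurableSet_of_loc (spotsB n s).finite_toSet (loc_Inv n s))
    b hc.locErr hc.locBad (fun r => loc_GoodU' V p r)
    ee ll ee_nonneg summable_ee (fun s hs => ee_le hs)
    (fun n s hs hn => prob_Bad_le_ee hs hn) 200 (fun n s hs hn => prob_Inv_le hs hn)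
    (fun s hs => ⟨(1 / 2 : ℝ) * ((1 / 2 : ℝ) ^ (rr s + 12) / (rr s : ℝ) ^ 2), by
      have := Z1_rr_pos hs
      positivity, fun n hn => prob_Bad_pos hs hn⟩)
    ll_nonneg not_summable_ll (fun r => key_U' V p r) hc.le_eval

theorem main_UP : ∀ᵐ A ∂randomOracle, ∀ K : Set (List Bool), IsUP A K →
    ∃ L : Set (List Bool), IsUP A L ∧ IsUP A Lᶜ ∧ ¬ Red A L K := by
  have := countable_poly2
  choose b hc hcore using fun q : Alg × Polynomial ℕ => ae_U' q.1 q.2
  have hall : ∀ᵐ A ∂randomOracle, ∀ q : Alg × Polynomial ℕ,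
      (∀ n s, A ∉ Bad n s ∩ ErrU q.1 q.2 n) → ∃ (t : ℕ) (L : List (List Bool)),
      (∃ i0, ∀ i ≥ i0, A ∉ UC.Inv (Tt (b q) t i)
        (H628R3.RO.lev Bad (fun n _ => ErrU q.1 q.2 n) t L (Tt (b q) t) i)) ∧
      ∀ (r : Alg) (i0 : ℕ), ∃ i ≥ i0, A ∉ UC.GoodU q.1 q.2 r (Tt (b q) t i)
        (H628R3.RO.lev Bad (fun n _ => ErrU q.1 q.2 n) t L (Tt (b q) t) i) :=
    ae_all_iff.2 hcore
  filter_upwards [hall] with A hA K hK
  obtain ⟨V, p, ⟨M, hM⟩, hV, huniq⟩ := hK
  have hw : ∀ x, Wit M p x A ↔ x ∈ K := by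
    intro x
    rw [hV x, Wit]
    refine exists_congr fun y => and_congr_right fun _ => ?_
    rw [hM, Option.some.injEq]
  obtain ⟨t, S, ⟨i1, h1⟩, h2⟩ := hA (M, p) (by
    rintro n s ⟨_, x, _, y, y', h3, h4, h5, h6, h7⟩
    rw [hM, Option.some.injEq] at h6 h7
    exact h3 (huniq x y y' h4 h5 h6 h7))
  set f := schK Bad (fun n _ => ErrU M p n) (b (M, p)) t S (Tt (b (M, p)) t i1) with hf
  have hfn : ∀ n s, f n = some s → s ≤ n := fun n s h => schK_le h
  have hfA : ∀ n s, f n = some s → A ∉ UC.Inv n s := by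
    intro n s h
    obtain ⟨h3, i, rfl, rfl⟩ := eq_of_schK h
    exact h1 i ((strictMono_Tt (b (M, p)) t).le_iff_le.1 h3)
  have hpf : Poly (fun x : List Unit => f x.length) :=
    Pool.Agent.H583R2.NC.p_schK' (hc (M, p)) t S _
  refine ⟨_, isUP_LL A f hpf hfn hfA, isUP_LLc A f hpf hfn hfA, ?_⟩
  rintro ⟨F, ⟨r, hr⟩, hF⟩
  obtain ⟨i, hi, h3⟩ := h2 r i1
  set n := Tt (b (M, p)) t i with hn
  set s := H628R3.RO.lev Bad (fun n _ => ErrU M p n) t S (Tt (b (M, p)) t) i with hs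
  have hfi : f n = some s := schK_Tt ((strictMono_Tt (b (M, p)) t).monotone hi)
  refine h3 fun bb hbb j hj ho => ⟨_, hr _, ?_⟩
  rw [hw, ← hF]
  exact (Z1_mem_LL_inst hfi hbb hj ho).symm

end Pool.Agent.TH654.TU
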